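import Mathlib
import Pool.Agent.W2helper1.SI.Main

/-!
# Stark's conjecture: an even quartic character which is out of reach of the formal rules

`S` is the set of the infinite places. The other definitions are in `Pool.Agent.K4H74.SC.Core`
(`Ext`, `Pair`, `G`, `IsChr`, `lin`, `IsCC`, `logTerm`) and in `Pool.Agent.K4H74.ST.Inv`
(`ArtinInvariant`).
-/

set_option autoImplicit false

namespace Pool.Agent.Results.MP_46b841_nt.EvenQuartic

open NumberField Pool.Agent.K4H74 Pool.Agent.K4H74.SK Pool.Agent.K4H74.ST Pool.Agent.K4H34.AL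
  Pool.Agent.W2helper1.SI

/-- The covered characters: those for which Stark's conjecture is known by the list of the problem
(totally odd characters, characters of abelian extensions of `ℚ`, rational valued characters), and,
whether known or not, all the characters over totally complex base fields, all the real valued
characters, all the characters of the extensions which contain no cube root of `2`, and all the
linear characters over the fields which contain no cube root of `2`. -/
inductive Covered : Pair → Prop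
  | totallyOdd (E : Ext) (χ : G E → ℂ) : IsChr χ → IsTotallyReal E.K →
      (∀ t : G E, IsCC t → χ t = - χ 1) → Covered ⟨E, χ⟩
  | abelian (E : Ext) (χ : G E → ℂ) : IsChr χ → IsGalois ℚ E.L →
      (∀ g h : E.L ≃ₐ[ℚ] E.L, g * h = h * g) → Covered ⟨E, χ⟩
  | realValued (E : Ext) (χ : G E → ℂ) : IsChr χ → (∀ g, (starRingEnd ℂ) (χ g) = χ g) →
      Covered ⟨E, χ⟩
  | totallyComplex (E : Ext) (χ : G E → ℂ) : IsChr χ → IsTotallyComplex E.K → Covered ⟨E, χ⟩
  | noCubeRoot (E : Ext) (χ : G E → ℂ) : IsChr χ → (∀ y : E.L, y ^ 3 ≠ 2) → Covered ⟨E, χ⟩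
  | linear (E : Ext) (ψ : G E →* ℂˣ) : (∀ y : E.K, y ^ 3 ≠ 2) → Covered ⟨E, lin ψ⟩
  | inflation (K L N : Type) [Field K] [NumberField K] [Field L] [NumberField L] [Field N]
      [NumberField N] [Algebra K L] [IsGalois K L] [Algebra K N] [IsGalois K N] [Algebra L N]
      [IsScalarTower K L N] (χ : (L ≃ₐ[K] L) → ℂ) : Covered ⟨⟨K, L⟩, χ⟩ →
      Covered ⟨⟨K, N⟩, fun g : N ≃ₐ[K] N => χ (AlgEquiv.restrictNormalHom L g)⟩

/-- `L(s, y) ^ n = ∏ L(s, x_i) ^ (k_i)` for `Re s > 1`. -/
def IsProduct (y : Pair) (n : ℤ) {r : ℕ} (x : Fin r → Pair) (k : Fin r → ℤ) : Prop :=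
  ∀ s : ℂ, 1 < s.re → ∀ (l : ℂ) (l' : Fin r → ℂ), HasSum (logTerm y.2 s) l →
    (∀ i, HasSum (logTerm (x i).2 s) (l' i)) →
    Complex.exp l ^ n = ∏ i, Complex.exp (l' i) ^ k i

/-- the value of the L-function at `s` -/
noncomputable def evs (s : {s : ℂ // 1 < s.re}) :
    Multiplicative ({s : ℂ // 1 < s.re} → ℂ) →* ℂˣ :=
  MonoidHom.mk' (fun y => Units.mk0 (Complex.exp (Multiplicative.toAdd y s))
    (Complex.exp_ne_zero _)) (by
    intro a b
    ext
    exact Complex.exp_add _ _)

lemma isChar_one' {G : Type} [Group G] : IsChar (fun _ : G => (1 : ℂ)) := by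
  have h : (fun _ : G => (1 : ℂ)) = lc (1 : G →* ℂˣ) := by
    funext g
    simp [lc]
  rw [h]
  exact IsChar.lc 1

lemma covered_chr {x : Pair} (h : Covered x) : IsChar x.2 := by
  induction h with
  | totallyOdd E χ h _ _ => exact isChr_iff.mp h
  | abelian E χ h _ _ => exact isChr_iff.mp h
  | realValued E χ h _ => exact isChr_iff.mp h
  | totallyComplex E χ h _ => exact isChr_iff.mp h
  | noCubeRoot E χ h _ => exact isChr_iff.mp h
  | linear E ψ _ => exact IsChar.lc ψ
  | inflation K L N χ _ ih => exact IsChar.comp ih (AlgEquiv.restrictNormalHom L)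

/-- There is a cyclic quartic extension `L / K` of `K = ℚ(a)`, `a ^ 3 = 2`, in which no infinite
place of `K` is ramified, with a faithful character `ψ`, such that the following holds.

(1) There is a rule `A` which attaches a sign to every character of every Galois extension of
number fields, takes sums to products, is invariant under inflation and under induction, has the
value `1` at all the covered characters, and the value `-1` at `ψ`.

(2) No power of `L(s, ψ)` with an odd exponent is a product of integral powers of Artin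
L-functions of covered characters.

(3) The square of every Artin L-function is such a product. -/
theorem result : ∃ (E : Ext) (ψ : G E →* ℂˣ) (a : E.K),
    a ^ 3 = 2 ∧ IntermediateField.adjoin ℚ {a} = ⊤ ∧ Nat.card (G E) = 4 ∧ IsCyclic (G E) ∧
    Function.Injective ψ ∧ (∀ t : G E, IsCC t → t = 1) ∧
    -- (1)
    (∃ A : ArtinInvariant ℤˣ, A.val E.K E.L (lin ψ) = -1 ∧
      ∀ x : Pair, Covered x → A.val x.1.K x.1.L x.2 = 1) ∧
    -- (2)
    (∀ n : ℤ, Odd n → ∀ (r : ℕ) (x : Fin r → Pair) (k : Fin r → ℤ), (∀ i, Covered (x i)) →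
      ¬ IsProduct ⟨E, lin ψ⟩ n x k) ∧
    -- (3)
    (∀ (F : Ext) (χ : G F → ℂ), IsChr χ → ∃ (r : ℕ) (x : Fin r → Pair) (k : Fin r → ℤ),
      (∀ i, Covered (x i)) ∧ IsProduct ⟨F, χ⟩ 2 x k) := by
  obtain ⟨E, ψ, a, A, ha, hadj, hcard, hcyc, hinj, hcc, hval, hC, hR, hL⟩ := exceptional
  have hcov : ∀ x : Pair, Covered x → A.val x.1.K x.1.L x.2 = 1 := by
    have hR1 : TrivOne A := fun K _ _ => hR K K _ isChar_one' (fun g => by simp)
    have hC1 : TrivComplex A := fun K L _ _ _ _ _ _ hK θ _ => hC K L hK _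
    have hO1 : TrivOdd A := fun K L _ _ _ _ _ _ hK θ _ => hL K L (real_no_cube hK) θ
    intro x hx
    induction hx with
    | totallyOdd F χ h hF ht =>
      refine val_totally_odd hR1 hC1 hO1 F.K F.L hF (isChr_iff.mp h) ?_
      rintro c ⟨φ, hφ⟩
      refine ht c ⟨φ, fun x => ?_⟩
      exact (hφ.eq x)
    | abelian F χ h hF hab =>
      exact val_no_cube hL F.K F.L (fun y => abel_no_cube F.L hab y) (isChr_iff.mp h)
    | realValued F χ h hr => exact hR F.K F.L χ (isChr_iff.mp h) hr
    | totallyComplex F χ h hF => exact hC F.K F.L hF χ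
    | noCubeRoot F χ h hF => exact val_no_cube hL F.K F.L hF (isChr_iff.mp h)
    | linear F θ hF => exact hL F.K F.L hF θ
    | inflation K L N χ h ih =>
      exact (A.val_infl K L N χ (covered_chr h)).trans ih
  refine ⟨E, ψ, a, ha, hadj, hcard, hcyc, hinj, hcc, ⟨A, hval, hcov⟩, ?_, ?_⟩
  · intro n hn r x k hx hprod
    let x' : Fin (r + 1) → Pair := Fin.cons ⟨E, lin ψ⟩ x
    let k' : Fin (r + 1) → ℤ := Fin.cons (-n) k
    have h1 := rel x' k' (fun i => by
      refine Fin.cases ?_ (fun j => ?_) i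
      · exact IsChar.lc ψ
      · exact covered_chr (hx j)) (fun s => by
      have h2 := hprod s.1 s.2 (∑' y, logTerm (lin ψ) s.1 y)
        (fun i => ∑' y, logTerm (x i).2 s.1 y) (logTerm_summable _ s.2).hasSum
        (fun i => (logTerm_summable _ s.2).hasSum)
      have h3 : Multiplicative.toAdd (pval logInv (⟨E, lin ψ⟩ : Pair)) s
          = ∑' y, logTerm (lin ψ) s.1 y := logInv_val _ s (logTerm_summable _ s.2).hasSum
      have h4 : ∀ i, Multiplicative.toAdd (pval logInv (x i)) s
          = ∑' y, logTerm (x i).2 s.1 y := fun i =>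
        logInv_val _ s (logTerm_summable _ s.2).hasSum
      have h5 : ∏ i, Complex.exp ((k i : ℂ) * Multiplicative.toAdd (pval logInv (x i)) s)
          = ∏ i, Complex.exp (∑' y, logTerm (x i).2 s.1 y) ^ k i :=
        Finset.prod_congr rfl fun i _ => by rw [h4 i, Complex.exp_int_mul]
      rw [Fin.sum_univ_succ, Complex.exp_add, Complex.exp_sum]
      simp only [x', k', Fin.cons_zero, Fin.cons_succ]
      rw [h5, h3, Complex.exp_int_mul, zpow_neg, h2]
      exact inv_mul_cancel₀ (Finset.prod_ne_zero_iff.mpr fun i _ =>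
        zpow_ne_zero _ (Complex.exp_ne_zero _))) A
    rw [Fin.prod_univ_succ] at h1
    simp only [x', k', Fin.cons_zero, Fin.cons_succ] at h1
    rw [Finset.prod_eq_one (fun i _ => by
      have h2 : pval A (x i) = 1 := hcov (x i) (hx i)
      rw [h2, one_zpow]), mul_one] at h1
    have h2 : pval A (⟨E, lin ψ⟩ : Pair) = -1 := hval
    rw [h2, Odd.neg_one_zpow hn.neg] at h1
    exact absurd h1 (by decide)
  · intro F χ hχ
    let P : Subgroup (Multiplicative ({s : ℂ // 1 < s.re} → ℂ)) :=
      Subgroup.closure {y | ∃ x : Pair, Covered x ∧ y = pval logInv x}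
    let B := mapInv (QuotientGroup.mk' P) logInv
    have hB : ∀ x : Pair, Covered x → B.val x.1.K x.1.L x.2 = 1 := by
      intro x hx
      exact (QuotientGroup.eq_one_iff (N := P) _).mpr (Subgroup.subset_closure ⟨x, hx, rfl⟩)
    have h1 : TrivOne B := fun K _ _ => hB ⟨⟨K, K⟩, fun _ => 1⟩
      (Covered.realValued ⟨K, K⟩ _ (isChr_iff.mpr isChar_one') (fun g => by simp))
    have h2 : TrivComplex B := fun K L _ _ _ _ _ _ hK θ _ => hB ⟨⟨K, L⟩, lc θ⟩
      (Covered.totallyComplex ⟨K, L⟩ _ (isChr_iff.mpr (IsChar.lc θ)) hK)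
    have h3 := main_sq B h1 h2 F.K F.L χ (isChr_iff.mp hχ)
    have h4 : B.val F.K F.L χ = QuotientGroup.mk' P (pval logInv ⟨F, χ⟩) := rfl
    rw [h4, ← map_pow] at h3
    have h5 : pval logInv ⟨F, χ⟩ ^ 2 ∈ P := (QuotientGroup.eq_one_iff _).mp h3
    obtain ⟨r, x, k, hx, h6⟩ := closure_form logInv Covered h5
    refine ⟨r, x, k, hx, fun s hs l l' hl hl' => ?_⟩
    have h7 := congrArg (fun u : ℂˣ => (u : ℂ)) (congrArg (evs ⟨s, hs⟩) h6)
    simp only [map_pow, map_prod, map_zpow, Units.val_pow_eq_pow_val, Units.coe_prod,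
      Units.val_zpow_eq_zpow_val] at h7
    have h8 : ((evs ⟨s, hs⟩ (pval logInv (⟨F, χ⟩ : Pair)) : ℂˣ) : ℂ) = Complex.exp l :=
      congrArg Complex.exp (logInv_val _ _ hl)
    have h9 : ∀ i, ((evs ⟨s, hs⟩ (pval logInv (x i)) : ℂˣ) : ℂ) = Complex.exp (l' i) := fun i =>
      congrArg Complex.exp (logInv_val _ _ (hl' i))
    rw [h8, Finset.prod_congr rfl (fun i _ => by rw [h9 i])] at h7
    exact_mod_cast h7

end Pool.Agent.Results.MP_46b841_nt.EvenQuartic
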