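import Mathlib
import Pool.Agent.W2helper73.SO.Fin

/-!
# Exact base change for Artin L-functions and Stark's conjecture

`S` is the set of the infinite places. Definitions:
* `Pool.Agent.K4H74.SC.Core`: `Ext`, `G`, `Pair`, `IsChr`, `lin`, `IsCC`, `logTerm` (the terms of
  `log L(s, χ)`), `IsLeading` (systems of leading coefficients at `s = 0`), `IsA` (Stark's numbers
  `A(χ, φ)`), `Stark`, `StarkSign`;
* `Pool.Agent.W2helper73.SO`: `OneReal` (in `BC`), `CxLin`, `IsProdOver`, `res` (in `Fin`).
-/

set_option autoImplicit false

namespace Pool.Agent.Results.MP_46b841_nt.ExactBaseChange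

open NumberField Pool.Agent.K4H74 Pool.Agent.K4H74.SK Pool.Agent.K4H74.ST Pool.Agent.K4H34.AL
  Pool.Agent.W2helper73.SO

/-- **Exact base change.** Let `N / k` be a Galois extension of number fields, and let `K` be an
intermediate field such that exactly one real place of `K` lies over every real place of `k`. Let
`χ` be a character of the Galois group of `N / k`. Then `L(s, Res χ)` is `L(s, χ)` times a product
of integral powers of L-functions of faithful linear characters of extensions of totally complex
fields. If Stark's conjecture holds for `σ` and the latter, it holds for `σ` and `Res χ` if and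
only if it holds for `σ` and `χ`. -/
theorem result (k K N : Type) [Field k] [NumberField k] [Field K] [NumberField K] [Field N]
    [NumberField N] [Algebra k K] [Algebra K N] [Algebra k N] [IsScalarTower k K N]
    [IsGalois k N] [IsGalois K N] (hK : OneReal k K) (χ : G ⟨k, N⟩ → ℂ) (hχ : IsChr χ) :
    IsProdOver CxLin ⟨⟨K, N⟩, res k K N χ⟩ ⟨⟨k, N⟩, χ⟩ ∧
    ∀ c : Pair → ℂ, IsLeading c → ∀ σ : ℂ ≃+* ℂ, (∀ x, CxLin x → Stark c σ x.2) →
      (Stark c σ (E := ⟨K, N⟩) (res k K N χ) ↔ Stark c σ (E := ⟨k, N⟩) χ) :=
  ⟨base_change_L hK χ hχ, fun _ hc σ hC => base_change_stark hc σ hC hK χ hχ⟩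

end Pool.Agent.Results.MP_46b841_nt.ExactBaseChange
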