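import Mathlib
import Pool.Agent.W2helper73.SO.Fin

/-!
# The quartic characters of the fields with exactly one real place

`S` is the set of the infinite places. Definitions:
* `Pool.Agent.K4H74.SC.Core`: `Ext`, `G`, `Pair`, `IsChr`, `lin`, `IsCC`, `logTerm` (the terms of
  `log L(s, χ)`), `IsLeading` (systems of leading coefficients at `s = 0`), `IsA` (Stark's numbers
  `A(χ, φ)`), `Stark`, `StarkSign`;
* `Pool.Agent.W2helper73.SO`: `IsProd` (in `Prod`), `Basic`, `Wide` (in `Cls`), `Quartic`, `FromQ`
  (in `Fin`).
-/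

set_option autoImplicit false

namespace Pool.Agent.Results.MP_46b841_nt.QuarticCriterion

open NumberField Pool.Agent.K4H74 Pool.Agent.K4H74.SK Pool.Agent.K4H74.ST Pool.Agent.K4H34.AL
  Pool.Agent.W2helper73.SO

/-- (1) **The criterion.** Let `K` have exactly one real place, and let `ψ` be a faithful character
of order `4` of a (cyclic quartic) extension `L / K`. The following are equivalent: some odd power
of `L(s, ψ)` is a product of integral powers of L-functions of characters of the wide class;
`L(s, ψ)` is a product of integral powers of L-functions of basic characters; the quadratic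
subextension of `L / K` is `K(√d)` with a rational number `d`. In this case Stark's conjecture for
`ψ` follows from the basic cases.

(2) For a field `K` with exactly one real place this is the case for all such `ψ` if and only if
`K = ℚ`. -/
theorem result :
    -- (1)
    (∀ (E : Ext) (ψ : G E →* ℂˣ), Quartic E ψ →
      List.TFAE [∃ n : ℤ, Odd n ∧ IsProd Wide ⟨E, lin ψ⟩ n, IsProd Basic ⟨E, lin ψ⟩ 1, FromQ E] ∧
      (FromQ E → ∀ c : Pair → ℂ, IsLeading c → ∀ σ : ℂ ≃+* ℂ,
        (∀ x, Basic x → Stark c σ x.2) → Stark c σ (lin ψ))) ∧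
    -- (2)
    (∀ (K : Type) [Field K] [NumberField K], InfinitePlace.nrRealPlaces K = 1 →
      ((∀ (L : Type) [Field L] [NumberField L] [Algebra K L] [IsGalois K L] (ψ : G ⟨K, L⟩ →* ℂˣ),
        Quartic ⟨K, L⟩ ψ → IsProd Basic ⟨⟨K, L⟩, lin ψ⟩ 1) ↔ Module.finrank ℚ K = 1)) :=
  ⟨fun E ψ hψ => ⟨criterion hψ, fun hQ c hc σ hB => stark_fromQ hc σ hB hψ hQ⟩,
    fun K _ _ hK => all_iff K hK⟩

end Pool.Agent.Results.MP_46b841_nt.QuarticCriterion
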