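import Mathlib
import Pool.Agent.W2helper73.SO.Fin

/-!
# Twisted systems of leading coefficients

`S` is the set of the infinite places. Definitions:
* `Pool.Agent.K4H74.SC.Core`: `Ext`, `G`, `Pair`, `IsChr`, `lin`, `IsCC`, `logTerm` (the terms of
  `log L(s, χ)`), `IsLeading` (systems of leading coefficients at `s = 0`), `IsA` (Stark's numbers
  `A(χ, φ)`), `Stark`, `StarkSign`;
* `Pool.Agent.K4H74.ST.Inv`: `ArtinInvariant` (a rule which attaches to all characters elements of
  an abelian group, with the formal properties of the Artin L-functions), and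
  `Pool.Agent.K4H34.AL.Comb`: `pval` (its values);
* `Pool.Agent.W2helper73.SO`: `Wide` (in `Cls`), `rt2`, `tw` (in `Twist`), `Quartic`, `FromQ` (in
  `Fin`).
-/

set_option autoImplicit false

namespace Pool.Agent.Results.MP_46b841_nt.TwistedSystems

open NumberField Pool.Agent.K4H74 Pool.Agent.K4H74.SK Pool.Agent.K4H74.ST Pool.Agent.K4H34.AL
  Pool.Agent.W2helper73.SO

/-- (1) Let `K` have exactly one real place, and let `ψ` be a faithful character of order `4` of a
(cyclic quartic) extension `L / K` whose quadratic subextension is not `K(√d)` with a rational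
number `d`. There are integers `F(χ)`, invariant under the automorphisms of `ℂ`, even for the wide
class and odd for `ψ`, such that for the leading coefficients `c` the system
`c'(χ) = c(χ) √2 ^ F(χ)` has all the formal properties of `c` (sums, inflation, induction),
satisfies Stark's conjecture up to sign exactly where `c` does, satisfies Stark's conjecture for
`σ` and every character of the wide class (for `σ` and every character, if `σ` fixes `√2`) exactly
when `c` does, but for some `σ` not both `c` and `c'` satisfy it for `ψ`.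

(2) Every number field `K ≠ ℚ` with exactly one real place has such an extension `L`. -/
theorem result :
    -- (1)
    (∀ (E : Ext) (ψ : G E →* ℂˣ), Quartic E ψ → ¬ FromQ E → ∃ F : Pair → ℤ,
      (∀ (E' : Ext) (χ : G E' → ℂ), IsChr χ → ∀ σ : ℂ ≃+* ℂ,
        F ⟨E', fun g => σ (χ g)⟩ = F ⟨E', χ⟩) ∧
      (∀ x, Wide x → Even (F x)) ∧ Odd (F ⟨E, lin ψ⟩) ∧
      ∀ c : Pair → ℂ, IsLeading c →
        (∃ C : ArtinInvariant ℂˣ, ∀ x : Pair, IsChr x.2 → ((pval C x : ℂˣ) : ℂ) = tw c F x) ∧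
        (∀ (σ : ℂ ≃+* ℂ) (E' : Ext) (χ : G E' → ℂ), IsChr χ →
          (StarkSign c σ χ ↔ StarkSign (tw c F) σ χ) ∧
          (Wide ⟨E', χ⟩ ∨ σ rt2 = rt2 → (Stark c σ χ ↔ Stark (tw c F) σ χ))) ∧
        ∃ σ : ℂ ≃+* ℂ, ¬ (Stark c σ (lin ψ) ∧ Stark (tw c F) σ (lin ψ))) ∧
    -- (2)
    (∀ (K : Type) [Field K] [NumberField K], InfinitePlace.nrRealPlaces K = 1 →
      Module.finrank ℚ K ≠ 1 → ∃ (L : Type) (_ : Field L) (_ : NumberField L) (_ : Algebra K L)
        (_ : IsGalois K L) (ψ : G ⟨K, L⟩ →* ℂˣ), Quartic ⟨K, L⟩ ψ ∧ ¬ FromQ ⟨K, L⟩) := by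
  refine ⟨fun E ψ hψ hQ => ?_, fun K _ _ hK h1 => exists_not_fromQ K hK h1⟩
  obtain ⟨A, h1, h2, h3⟩ := exists_exc hψ hQ
  have hσ : ∀ (E' : Ext) (χ : G E' → ℂ), IsChr χ → ∀ σ : ℂ ≃+* ℂ,
      (pval A ⟨E', fun g => σ (χ g)⟩).toAdd = (pval A ⟨E', χ⟩).toAdd :=
    fun E' χ hχ σ => by rw [h1 E' χ hχ σ]
  refine ⟨fun x => (pval A x).toAdd, hσ, h2, h3, fun c hc => ⟨formal_tw hc A, ?_, ?_⟩⟩
  · intro σ E' χ hχ
    refine ⟨sign_tw (hσ E' χ hχ σ), fun h => stark_tw (hσ E' χ hχ σ) ?_⟩
    rcases h with h | h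
    · exact Or.inl (h2 _ h)
    · exact Or.inr h
  · obtain ⟨σ, hσ2⟩ := exists_sigma
    exact ⟨σ, not_both hc (isChr_lin ψ) (hσ E _ (isChr_lin ψ) σ) h3 hσ2⟩

end Pool.Agent.Results.MP_46b841_nt.TwistedSystems
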